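import Pool.Agent.W873.RT.Stm

set_option autoImplicit false

open MeasureTheory ProbabilityTheory Polynomial Filter Topology
open scoped ENNReal NNReal

namespace Pool.Agent.W755.RT.EX2

open Pool.Agent.W873.RS (sc chg npos)
open Pool.Agent.W873.RT

lemma ae_ne {s : ℕ} (f : Fin s → ℝ[X]) (hf : ∀ i, f i ≠ 0) (ε : ℝ) :
    ∀ᵐ x : ℝ, ∀ i, (f i).eval x ≠ 0 ∧ (f i).eval (x + ε) ≠ 0 := by
  have h1 : ∀ i, ∀ᵐ x : ℝ, (f i).eval x ≠ 0 := by
    intro i
    have h2 : {x : ℝ | ¬ (f i).eval x ≠ 0} ⊆ ((f i).roots.toFinset : Set ℝ) := by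
      intro x hx
      simp only [ne_eq, not_not, Set.mem_ofPred_eq] at hx
      simp [hf i, hx]
    have h3 : volume {x : ℝ | ¬ (f i).eval x ≠ 0} = 0 :=
      measure_mono_null h2 ((Finset.finite_toSet _).measure_zero _)
    exact h3
  refine ae_all_iff.2 fun i => ?_
  have h4 : ∀ᵐ x : ℝ, (f i).eval (x + ε) ≠ 0 :=
    (measurePreserving_add_right volume ε).quasiMeasurePreserving.ae (h1 i)
  filter_upwards [h1 i, h4] with x hx hx'
  exact ⟨hx, hx'⟩

lemma eval_sq {s : ℕ} (f : Fin s → ℝ[X]) (c : Fin s → ℝ) (x : ℝ) :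
    (Pool.Agent.W873.RT.sq f c).eval x = ∑ i, c i * ((f i).eval x) ^ 2 := by
  simp [Pool.Agent.W873.RT.sq, eval_finsetSum]

lemma meas_rho (f g : ℝ[X]) (ε : ℝ) : Measurable (fun x : ℝ => ENNReal.ofReal
      |rho ((f.eval x) ^ 2) ((g.eval x) ^ 2) -
        rho ((f.eval (x + ε)) ^ 2) ((g.eval (x + ε)) ^ 2)|) := by
  have hf : Measurable (fun x : ℝ => f.eval x) := f.continuous.measurable
  have hg : Measurable (fun x : ℝ => g.eval x) := g.continuous.measurable
  have hf' : Measurable (fun x : ℝ => f.eval (x + ε)) := hf.comp (measurable_id.add_const ε)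
  have hg' : Measurable (fun x : ℝ => g.eval (x + ε)) := hg.comp (measurable_id.add_const ε)
  refine ENNReal.measurable_ofReal.comp ?_
  have h1 : Measurable (fun x : ℝ => rho ((f.eval x) ^ 2) ((g.eval x) ^ 2)) :=
    (hf.pow_const 2).div ((hf.pow_const 2).add (hg.pow_const 2))
  have h2 : Measurable (fun x : ℝ => rho ((f.eval (x + ε)) ^ 2) ((g.eval (x + ε)) ^ 2)) :=
    (hf'.pow_const 2).div ((hf'.pow_const 2).add (hg'.pow_const 2))
  exact (h1.sub h2).abs

lemma count {s : ℕ} (t : Fin s → ℕ) : ∑ i, ∑ k, (t i + t k) = 2 * (s * ∑ i, t i) := by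
  simp only [Finset.sum_add_distrib, Finset.sum_const, Finset.card_univ, Fintype.card_fin,
    smul_eq_mul, ← Finset.mul_sum]
  ring

lemma countE {s : ℕ} (t : Fin s → ℕ) (e : ℝ≥0∞) :
    ∑ i, ∑ k, e * (2 * ((t i + t k : ℕ) : ℝ≥0∞)) =
      e * (4 * ((s : ℝ≥0∞) * ((∑ i, t i : ℕ) : ℝ≥0∞))) := by
  have h1 : ∑ i, ∑ k, e * (2 * ((t i + t k : ℕ) : ℝ≥0∞)) =
      e * (2 * ((∑ i, ∑ k, (t i + t k) : ℕ) : ℝ≥0∞)) := by
    rw [Nat.cast_sum, Finset.mul_sum, Finset.mul_sum]
    refine Finset.sum_congr rfl fun i _ => ?_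
    rw [Nat.cast_sum, Finset.mul_sum, Finset.mul_sum]
  rw [h1, count]
  push_cast
  ring

theorem main (hPR2 : PR2) (hLAY : LAY) (hTON : Pool.Agent.W873.RS.TON) (hMS2 : MS2) : EX2 := by
  intro s f μ _ K M ε hε hf hμ hM
  have hm := (hMS2 s f).2
  rw [(hTON _ (Measure.pi μ) (fun c x => (Pool.Agent.W873.RT.sq f c).eval x) ε hm).2]
  have hae := ae_ne f hf ε
  calc ∫⁻ x in Set.Ioi (0 : ℝ), (Measure.pi μ) {c | sc ((Pool.Agent.W873.RT.sq f c).eval x) ((Pool.Agent.W873.RT.sq f c).eval (x + ε))}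
      ≤ ∫⁻ x in Set.Ioi (0 : ℝ), 6 * (1 + K * M) * ∑ i, ∑ k, ENNReal.ofReal
          |rho (((f i).eval x) ^ 2) (((f k).eval x) ^ 2) -
            rho (((f i).eval (x + ε)) ^ 2) (((f k).eval (x + ε)) ^ 2)| := by
        refine lintegral_mono_ae ?_
        filter_upwards [ae_restrict_of_ae hae] with x hx
        have h1 := hPR2 s μ K M (fun i => ((f i).eval x) ^ 2) (fun i => ((f i).eval (x + ε)) ^ 2)
          hμ hM (fun i => by have := (hx i).1; positivity) (fun i => by have := (hx i).2; positivity)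
        simp only [eval_sq]
        exact h1
    _ = 6 * (1 + K * M) * ∑ i, ∑ k, ∫⁻ x in Set.Ioi (0 : ℝ), ENNReal.ofReal
          |rho (((f i).eval x) ^ 2) (((f k).eval x) ^ 2) -
            rho (((f i).eval (x + ε)) ^ 2) (((f k).eval (x + ε)) ^ 2)| := by
        rw [lintegral_const_mul _ (Finset.measurable_sum _ fun i _ =>
          Finset.measurable_sum _ fun k _ => meas_rho (f i) (f k) ε)]
        rw [lintegral_finsetSum _ (fun i _ =>
          Finset.measurable_sum _ fun k _ => meas_rho (f i) (f k) ε)]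
        congr 1
        refine Finset.sum_congr rfl fun i _ => ?_
        rw [lintegral_finsetSum _ (fun k _ => meas_rho (f i) (f k) ε)]
    _ ≤ 6 * (1 + K * M) * ∑ i, ∑ k, ENNReal.ofReal ε *
          (2 * (((f i).support.card + (f k).support.card : ℕ) : ℝ≥0∞)) := by
        gcongr with i _ k _
        exact hLAY (f i) (f k) ε hε (hf i) (hf k)
    _ = ENNReal.ofReal ε * (24 * (1 + K * M) * s * ((∑ i, (f i).support.card : ℕ) : ℝ≥0∞)) := by
        rw [countE (fun i => (f i).support.card)]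
        ring

end Pool.Agent.W755.RT.EX2
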